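import Mathlib
import Pool.Agent.MP_dabcc5_co.Defs
import Pool.Agent.MP_dabcc5_co.Mg.Example

set_option autoImplicit false

namespace Pool.Agent.Results.MP_dabcc5_co.NotSupersolvable

open Pool.Agent.MP_dabcc5_co

/-- There is a normal tangential 1-block over the field with five elements that is not
supersolvable. -/
theorem result :
    ∃ (F : Type) (_ : Field F) (_ : Fintype F) (M : Matroid (Fin 10)),
      Fintype.card F = 5 ∧ IsNormalTangentialBlock F 1 M ∧ ¬ IsSupersolvable M :=
  ⟨ZMod 5, inferInstance, inferInstance, prism, ZMod.card 5, prism_isNormal,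
    prism_not_supersolvable⟩

end Pool.Agent.Results.MP_dabcc5_co.NotSupersolvable
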